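import Pool.Agent.H41.HYP.Base

/-!
# HYP: the determinant of the Gram matrix of the power basis

`det_anti`: the determinant of a matrix which is zero above the antidiagonal. `gr_mul`: the matrix of
`τ(x^(i+j) h)`. `gdt`: its determinant.
-/

set_option autoImplicit false

namespace Pool.HYP

open Polynomial Matrix

/-- The determinant of a matrix with entries `1` on the antidiagonal and `0` above it. -/
theorem det_anti {R : Type} [CommRing R] : ∀ (n : ℕ) (A : Matrix (Fin n) (Fin n) R),
    (∀ i j : Fin n, (i : ℕ) + j + 1 < n → A i j = 0) →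
    (∀ i j : Fin n, (i : ℕ) + j + 1 = n → A i j = 1) → A.det = (-1) ^ (n * (n - 1) / 2)
  | 0, A, _, _ => by simp
  | n + 1, A, h0, h1 => by
    rw [Matrix.det_succ_row_zero, Finset.sum_eq_single (Fin.last n)]
    · rw [h1 0 (Fin.last n) (by simp), Fin.succAbove_last]
      have ih := det_anti n (A.submatrix Fin.succ Fin.castSucc)
        (fun i j hij => h0 _ _ (by
          rw [Fin.val_succ, Fin.val_castSucc]
          omega))
        (fun i j hij => h1 _ _ (by
          rw [Fin.val_succ, Fin.val_castSucc]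
          omega))
      rw [ih, mul_one, Fin.val_last, ← pow_add]
      congr 1
      rcases Nat.eq_zero_or_pos n with rfl | hn
      · rfl
      · obtain ⟨k, rfl⟩ : ∃ k, n = k + 1 := ⟨n - 1, by omega⟩
        have e1 : k + 1 + 1 - 1 = k + 1 := by omega
        have e2 : k + 1 - 1 = k := by omega
        rw [e1, e2]
        have e3 : (k + 1 + 1) * (k + 1) = (k + 1) * k + (k + 1) * 2 := by ring
        rw [e3, Nat.add_mul_div_right _ _ (by norm_num)]
        omega
    · intro j _ hj
      have hj' : (j : ℕ) < n := by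
        have h2 := j.is_lt
        have h3 : (j : ℕ) ≠ n := fun h => hj (Fin.ext h)
        omega
      rw [h0 0 j (by
        rw [Fin.val_zero]
        omega)]
      ring
    · intro h
      exact absurd (Finset.mem_univ _) h

variable {K : Type} [Field K]

/-- The linear functional `τ` on the algebra. -/
noncomputable def tauL {f : K[X]} (hf : f.Monic) : AdjoinRoot f →ₗ[K] K :=
  (lcoeff K (f.natDegree - 1)).comp (AdjoinRoot.modByMonicHom hf)

theorem tauL_mk {f : K[X]} (hf : f.Monic) (p : K[X]) : tauL hf (AdjoinRoot.mk f p) = tau f p := by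
  unfold tauL tau
  rw [LinearMap.comp_apply, AdjoinRoot.modByMonicHom_mk, lcoeff_apply]

theorem basis_pow {f : K[X]} (hf : f.Monic) (i : Fin f.natDegree) :
    AdjoinRoot.powerBasisAux' hf i = AdjoinRoot.root f ^ (i : ℕ) :=
  (AdjoinRoot.powerBasis' hf).basis_eq_pow i

theorem gr_apply {f : K[X]} (hf : f.Monic) (h : K[X]) (i j : Fin f.natDegree) :
    gr 0 f.natDegree f h i j = tauL hf (AdjoinRoot.powerBasisAux' hf i *
      (AdjoinRoot.mk f h * AdjoinRoot.powerBasisAux' hf j)) := by
  rw [basis_pow, basis_pow]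
  show tau f _ = tauL hf (AdjoinRoot.root f ^ (i : ℕ) * (AdjoinRoot.mk f h *
    AdjoinRoot.root f ^ (j : ℕ)))
  rw [← AdjoinRoot.mk_X, ← map_pow, ← map_pow, ← map_mul, ← map_mul, tauL_mk]
  congr 1
  rw [add_zero, pow_add]
  ring

/-- The matrix of multiplication. -/
theorem gr_mul {f : K[X]} (hf : f.Monic) (h : K[X]) : gr 0 f.natDegree f h =
    gr 0 f.natDegree f 1 * Algebra.leftMulMatrix (AdjoinRoot.powerBasisAux' hf)
      (AdjoinRoot.mk f h) := by
  ext i j
  rw [gr_apply hf, Matrix.mul_apply]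
  have e1 : ∀ k, gr 0 f.natDegree f 1 i k = tauL hf (AdjoinRoot.powerBasisAux' hf i *
      AdjoinRoot.powerBasisAux' hf k) := fun k => by
    rw [gr_apply hf, map_one, one_mul]
  obtain ⟨x, hx⟩ : ∃ x, x = AdjoinRoot.mk f h * AdjoinRoot.powerBasisAux' hf j := ⟨_, rfl⟩
  have e2 : ∀ k, Algebra.leftMulMatrix (AdjoinRoot.powerBasisAux' hf) (AdjoinRoot.mk f h) k j =
      (AdjoinRoot.powerBasisAux' hf).repr x k := fun k => by
    rw [Algebra.leftMulMatrix_eq_repr_mul, hx]
  rw [← hx, Finset.sum_congr rfl fun k _ => by rw [e1 k, e2 k]]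
  conv_lhs => rw [← (AdjoinRoot.powerBasisAux' hf).sum_repr x, Finset.mul_sum, map_sum]
  refine Finset.sum_congr rfl fun k _ => ?_
  rw [mul_smul_comm, map_smul, smul_eq_mul, mul_comm]

/-- **The determinant of the Gram matrix.** -/
theorem gdt (K : Type) [Field K] (n : ℕ) (f : K[X]) (hf : f.Monic) (hn : f.natDegree = n) :
    (gr 0 n f 1).det = (-1) ^ (n * (n - 1) / 2) ∧
      ∀ h : K[X], (gr 0 n f h).det = (-1) ^ (n * (n - 1) / 2) *
        Algebra.norm K (AdjoinRoot.mk f h) := by
  subst hn
  have h1 : (gr 0 f.natDegree f 1).det = (-1) ^ (f.natDegree * (f.natDegree - 1) / 2) := by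
    have key : ∀ i j : Fin f.natDegree, (i : ℕ) + j + 1 ≤ f.natDegree →
        gr 0 f.natDegree f 1 i j = if (i : ℕ) + j + 1 = f.natDegree then 1 else 0 := by
      intro i j hij
      show ((X ^ ((i : ℕ) + (j : ℕ) + 0) * 1 : K[X]) %ₘ f).coeff (f.natDegree - 1) = _
      rw [mul_one, add_zero, (modByMonic_eq_self_iff hf).2 (by
        rw [degree_X_pow, degree_eq_natDegree hf.ne_zero]
        exact_mod_cast (by omega : (i : ℕ) + j < f.natDegree)), coeff_X_pow]
      refine if_congr ?_ rfl rfl
      omega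
    refine det_anti _ _ (fun i j hij => ?_) (fun i j hij => ?_)
    · rw [key i j hij.le, if_neg hij.ne]
    · rw [key i j hij.le, if_pos hij]
  refine ⟨h1, fun h => ?_⟩
  rw [gr_mul hf, Matrix.det_mul, h1,
    ← Algebra.norm_eq_matrix_det (AdjoinRoot.powerBasisAux' hf)]

end Pool.HYP
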